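import Pool.Agent.MP_d32a63_an.H58.Spec

/-! Threads and probes. -/

open Set Filter Topology Metric
open Complex (I)
open Pool.Agent.MP_d32a63_an.H58

namespace Pool.Agent.MP_d32a63_an.H62

noncomputable section

variable {W : Set ℂ} {Γ : Set Seg} {d ℓ s Λ : ℝ} {y z : ℂ} {k j : ℤ}

lemma sq1 (hs : s = 1 ∨ s = -1) : s * s = 1 := by rcases hs with rfl | rfl <;> norm_num

lemma pt_eq (hs : s = 1 ∨ s = -1) (h : z.re = y.re) :
    y + ((s * (s * (z.im - y.im)) : ℝ) : ℂ) * I = z := by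
  rw [← mul_assoc, sq1 hs, one_mul]
  exact Complex.ext (by simp [h]) (by simp)

lemma par_iff (hs : s = 1 ∨ s = -1) (hΛ : 0 < Λ) (A : Set ℝ) :
    z ∈ (fun θ : ℝ => y + θ • (y + ((s * Λ : ℝ) : ℂ) * I - y)) '' A ↔
      z.re = y.re ∧ s * (z.im - y.im) / Λ ∈ A := by
  constructor
  · rintro ⟨θ, h, rfl⟩
    refine ⟨by simp, ?_⟩
    have : s * ((y + θ • (y + ((s * Λ : ℝ) : ℂ) * I - y)).im - y.im) = θ * Λ := by
      simp
      linear_combination θ * Λ * sq1 hs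
    rwa [this, mul_div_cancel_right₀ _ hΛ.ne']
  · rintro ⟨h, h'⟩
    refine ⟨_, h', Complex.ext (by simp [h]) ?_⟩
    simp
    field_simp
    linear_combination (z.im - y.im) * sq1 hs

lemma mem_seg (hs : s = 1 ∨ s = -1) (hΛ : 0 < Λ) :
    z ∈ segment ℝ y (y + ((s * Λ : ℝ) : ℂ) * I) ↔
      z.re = y.re ∧ 0 ≤ s * (z.im - y.im) ∧ s * (z.im - y.im) ≤ Λ := by
  rw [segment_eq_image', par_iff hs hΛ, mem_Icc, le_div_iff₀ hΛ, div_le_one hΛ, zero_mul]

lemma mem_oseg (hs : s = 1 ∨ s = -1) (hΛ : 0 < Λ) :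
    z ∈ openSegment ℝ y (y + ((s * Λ : ℝ) : ℂ) * I) ↔
      z.re = y.re ∧ 0 < s * (z.im - y.im) ∧ s * (z.im - y.im) < Λ := by
  rw [openSegment_eq_image', par_iff hs hΛ, mem_Ioo, lt_div_iff₀ hΛ, div_lt_one hΛ, zero_mul]

lemma prb_free (h : Prb W Γ d ℓ k y s) (h0 : z.re = y.re) (h1 : 0 < s * (z.im - y.im))
    (h2 : s * (z.im - y.im) ≤ 3 * d) : z ∉ closure W ∧ ∀ g ∈ Γ, z ∉ segment ℝ g.p g.v := by
  have := h.free _ ⟨h1, h2⟩
  rwa [pt_eq h.sg h0] at this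

/-- Two anchors of probes with the same direction are far apart. -/
lemma prb_eq {k' : ℤ} (h : Prb W Γ d ℓ k y s) (h' : Prb W Γ d ℓ k' z s) (h0 : z.re = y.re)
    (h1 : |s * (z.im - y.im)| ≤ 3 * d) : z = y := by
  rw [abs_le] at h1
  rcases lt_trichotomy (s * (z.im - y.im)) 0 with e | e | e
  · exact absurd h.mem (prb_free h' h0.symm (by linarith) (by linarith)).1
  · rw [← pt_eq h.sg h0, e]
    simp
  · exact absurd h'.mem (prb_free h h0 e h1.2).1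

lemma abs_sg (hs : s = 1 ∨ s = -1) (x : ℝ) : |s * x| = |x| := by
  rcases hs with rfl | rfl <;> simp

lemma act_of {R : ℝ} (hl : 0 < ℓ) (h : Disjoint (ball z R) (closure W)) (h0 : z.re = k * ℓ)
    (h1 : |((j : ℝ) + 1 / 2) * ℓ - z.im| + 4 * ℓ ≤ R) : act W ℓ (k - 1, j) ∧ act W ℓ (k, j) := by
  have key : ∀ i : ℤ, |((i : ℝ) + 1 / 2) * ℓ - k * ℓ| ≤ ℓ → act W ℓ (i, j) := fun i hi =>
    h.mono_left (ball_subset_ball' (by
      have := Complex.norm_le_abs_re_add_abs_im (cen ℓ (i, j) - z)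
      simp only [cen, Complex.sub_re, Complex.sub_im, Complex.add_re, Complex.add_im,
        Complex.ofReal_re, Complex.ofReal_im, Complex.mul_re, Complex.mul_im, Complex.I_re,
        Complex.I_im, mul_zero, mul_one, sub_zero, add_zero, zero_add, h0] at this
      rw [dist_eq_norm, cen]
      linarith))
  refine ⟨key _ ?_, key _ ?_⟩
  · push_cast
    rw [abs_le]
    constructor <;> linarith
  · rw [abs_le]
    constructor <;> linarith

lemma floor_band (hl : 0 < ℓ) (x : ℝ) : ⌊x / ℓ⌋ * ℓ ≤ x ∧ x < (⌊x / ℓ⌋ + 1) * ℓ :=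
  ⟨(le_div_iff₀ hl).1 (Int.floor_le _), (div_lt_iff₀ hl).1 (Int.lt_floor_add_one _)⟩

lemma near_cen (hl : 0 < ℓ) (h0 : z.re = k * ℓ) (h1 : z.im ∈ Icc ((j : ℝ) * ℓ) (((j : ℝ) + 1) * ℓ)) :
    ‖z - cen ℓ (k, j)‖ < ℓ := by
  refine lt_of_pow_lt_pow_left₀ 2 hl.le ?_
  rw [Complex.sq_norm, Complex.normSq_apply]
  simp only [cen, Complex.sub_re, Complex.sub_im, Complex.add_re, Complex.add_im,
    Complex.ofReal_re, Complex.ofReal_im, Complex.mul_re, Complex.mul_im, Complex.I_re,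
    Complex.I_im, mul_zero, mul_one, sub_zero, add_zero, zero_add, h0]
  nlinarith [mul_nonneg (sub_nonneg.2 h1.1) (sub_nonneg.2 h1.2), mul_pos hl hl]

/-- A band that can carry a station. -/
def Good (W : Set ℂ) (ℓ : ℝ) (k : ℤ) (y : ℂ) (s Λ : ℝ) (j : ℤ) : Prop :=
  act W ℓ (k - 1, j) ∧ act W ℓ (k, j) ∧
    ∀ t ∈ Icc ((j : ℝ) * ℓ) (((j : ℝ) + 1) * ℓ), 0 < s * (t - y.im) ∧ s * (t - y.im) < Λ

def sg (g : Seg) : ℝ := if g.p.im < g.v.im then 1 else -1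

open Classical in
/-- The thread of a gap. -/
def Th (W : Set ℂ) (d ℓ : ℝ) (g : Seg) : Obj :=
  ⟨⌊g.p.re / ℓ⌋, g.p, sg g, |g.v.im - g.p.im|,
    ((Finset.Icc ⌊-1 / d⌋ ⌊1 / d⌋).image fun m : ℤ => ⌊m * d / ℓ⌋).filter
      (Good W ℓ ⌊g.p.re / ℓ⌋ g.p (sg g) |g.v.im - g.p.im|), True⟩

/-- The probe of an anchor. -/
def Pr (d ℓ : ℝ) (x : ℤ × ℂ × ℝ) : Obj :=
  ⟨x.1, x.2.1, x.2.2, 3 / 2 * d, {⌊(x.2.1.im + x.2.2 * d) / ℓ⌋}, False⟩

lemma sg_eq (g : Seg) : sg g = 1 ∨ sg g = -1 := by unfold sg; split_ifs <;> simp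

lemma th_fin {g : Seg} (h : g.p.re = g.v.re) : (Th W d ℓ g).fin = g.v := by
  have : sg g * |g.v.im - g.p.im| = g.v.im - g.p.im := by
    unfold sg
    split_ifs with e
    · rw [one_mul, abs_of_pos (sub_pos.2 e)]
    · rw [abs_of_nonpos (sub_nonpos.2 (not_lt.1 e))]
      ring
  change g.p + ((sg g * |g.v.im - g.p.im| : ℝ) : ℂ) * I = g.v
  rw [this]
  exact Complex.ext (by simp [h]) (by simp)

lemma pr_near (hl : 0 < ℓ) (x : ℝ) : |((⌊x / ℓ⌋ : ℝ) + 1 / 2) * ℓ - x| ≤ ℓ := by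
  have := floor_band hl x
  rw [abs_le]
  constructor <;> linarith [this.1, this.2]

lemma pr_good (hl : 0 < ℓ) (hd : 10 * ℓ ≤ d) (h : Prb W Γ d ℓ k y s) :
    Good W ℓ k y s (3 / 2 * d) ⌊(y.im + s * d) / ℓ⌋ := by
  have h1 := pr_near hl (y.im + s * d)
  have h2 := floor_band hl (y.im + s * d)
  have := act_of (k := k) (j := ⌊(y.im + s * d) / ℓ⌋) hl h.far (by simp [h.re]) (by
    have e : (y + ((s * d : ℝ) : ℂ) * I).im = y.im + s * d := by simp
    rw [e]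
    linarith)
  refine ⟨this.1, this.2, fun t ht => ?_⟩
  have h3 := ht.1
  have h4 := ht.2
  rcases h.sg with rfl | rfl <;> constructor <;> linarith [h2.1, h2.2]

theorem obj : R_OBJ := by
  intro hB n c Γ hΓ
  have hlen : ∀ g ∈ Γ, 0 < |g.v.im - g.p.im| := fun g hg => abs_pos.2 fun e =>
    hΓ.ne g hg (Complex.ext (hΓ.vert g hg) (by linarith))
  obtain ⟨d1, ⟨a1, a2⟩, a3⟩ := ((((eventually_all_finite hΓ.fin).2 fun g hg =>
    eventually_lt_nhds (hlen g hg)).and (eventually_lt_nhds (show (0 : ℝ) < 1 / 10 by norm_num))).filter_mono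
    (nhdsWithin_le_nhds (s := Ioi 0))).and self_mem_nhdsWithin |>.exists
  refine ⟨d1, a3, fun d hd ℓ hl hld hk => ?_⟩
  set W := c.W
  have hd0 := hd.1
  have hd1 : d < 1 / 10 := hd.2.trans_lt a2
  have h10 : 10 * ℓ ≤ d := by nlinarith
  have hΛ : 0 < 3 / 2 * d := by linarith
  have hΛ' : 3 / 2 * d ≤ 3 * d := by linarith
  have hk' : ∀ g ∈ Γ, ⌊g.p.re / ℓ⌋ % 3 = 0 ∧ g.p.re = ⌊g.p.re / ℓ⌋ * ℓ := fun g hg => by
    obtain ⟨k, h1, h2⟩ := hk g hg
    rw [h2, mul_div_cancel_right₀ _ hl.ne', Int.floor_intCast]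
    exact ⟨h1, rfl⟩
  have hf : ∀ g ∈ Γ, (Th W d ℓ g).fin = g.v := fun g hg => th_fin (hΓ.vert g hg)
  have hseg : ∀ g ∈ Γ, ∀ z, z ∈ segment ℝ g.p g.v ↔ z.re = g.p.re ∧ 0 ≤ sg g * (z.im - g.p.im) ∧
      sg g * (z.im - g.p.im) ≤ |g.v.im - g.p.im| := fun g hg z => by
    rw [← mem_seg (sg_eq g) (hlen g hg)]
    exact iff_of_eq (congrArg (z ∈ segment ℝ g.p ·) (hf g hg).symm)
  let P : Set (ℤ × ℂ × ℝ) := {x | Prb W Γ d ℓ x.1 x.2.1 x.2.2}
  have hP : P.Finite := by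
    refine Finite.of_finite_image (f := fun x => ((x.1, ⌊(x.2.1.im + x.2.2 * d) / ℓ⌋), x.2.2))
      (((hB.finA W ℓ c.base hl).prod (toFinite {1, -1})).subset ?_) ?_
    · rintro _ ⟨x, hx, rfl⟩
      exact ⟨(pr_good hl h10 hx).2.1, Prb.sg hx⟩
    · rintro ⟨k, y, s⟩ hx ⟨k', z, s'⟩ hz e
      simp only [Prod.mk.injEq] at e
      obtain ⟨⟨rfl, e⟩, rfl⟩ := e
      have h1 := floor_band hl (y.im + s * d)
      have h2 := floor_band hl (z.im + s * d)
      rw [e] at h1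
      rw [show z = y from prb_eq hx hz ((Prb.re hz).trans (Prb.re hx).symm) (by
        rw [abs_sg (Prb.sg hx), abs_le]
        constructor <;> linarith [h1.1, h1.2, h2.1, h2.2])]
  refine ⟨Th W d ℓ '' Γ ∪ Pr d ℓ '' P, ⟨(hΓ.fin.image _).union (hP.image _), ?_, ?_, ?_, ?_, ?_, ?_,
    ?_, ?_⟩, ⟨?_, fun g hg => ⟨_, Or.inl ⟨g, hg, rfl⟩, trivial, rfl, hf g hg⟩, ?_, ?_, ?_, ?_, ?_,
    fun k y s h => ⟨_, Or.inr ⟨(k, y, s), h, rfl⟩, id, rfl, rfl, _, Finset.mem_singleton_self _, ?_⟩⟩⟩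
  · rintro _ (⟨g, hg, rfl⟩ | ⟨x, hx, rfl⟩)
    · exact sg_eq g
    · exact Prb.sg hx
  · rintro _ (⟨g, hg, rfl⟩ | ⟨x, hx, rfl⟩)
    · exact (hΓ.ends g hg).1
    · exact Prb.mem hx
  · rintro _ (⟨g, hg, rfl⟩ | ⟨x, hx, rfl⟩)
    · exact (hk' g hg).2
    · exact Prb.re hx
  · rintro _ (⟨g, hg, rfl⟩ | ⟨x, hx, rfl⟩)
    · have := a1 g hg
      change _ < |g.v.im - g.p.im|
      linarith [hd.2]
    · change _ < 3 / 2 * d
      linarith
  · rintro _ (⟨g, hg, rfl⟩ | ⟨x, hx, rfl⟩)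
    · rw [hf g hg]
      exact hΓ.free g hg
    · refine disjoint_left.2 fun z hz => ?_
      obtain ⟨h1, h2, h3⟩ := (mem_oseg (Prb.sg hx) hΛ).1 hz
      exact (prb_free hx h1 h2 (h3.le.trans hΛ')).1
  · rintro _ (⟨g, hg, rfl⟩ | ⟨x, hx, rfl⟩) _ (⟨g', hg', rfl⟩ | ⟨x', hx', rfl⟩) hne
    · rw [hf g hg, hf g' hg']
      exact hΓ.cross g hg g' hg' fun e => hne (by rw [e])
    · rw [hf g hg]
      refine disjoint_left.2 fun z hz hz' => ?_
      obtain ⟨h1, h2, h3⟩ := (mem_seg (Prb.sg hx') hΛ).1 hz'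
      rcases h2.eq_or_lt with e | e
      · refine disjoint_left.1 (hΓ.free g hg) hz ?_
        rw [← pt_eq (Prb.sg hx') h1, ← e]
        simpa [Pr] using Prb.mem hx'
      · exact (prb_free hx' h1 e (h3.trans hΛ')).2 g hg (openSegment_subset_segment _ _ _ hz)
    · rw [hf g' hg']
      refine disjoint_left.2 fun z hz => ?_
      obtain ⟨h1, h2, h3⟩ := (mem_oseg (Prb.sg hx) hΛ).1 hz
      exact (prb_free hx h1 h2 (h3.le.trans hΛ')).2 g' hg'
    · refine disjoint_left.2 fun z hz hz' => ?_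
      obtain ⟨k, y, s⟩ := x
      obtain ⟨k', y', s'⟩ := x'
      obtain ⟨h1, h2, h3⟩ : z.re = y.re ∧ 0 < s * (z.im - y.im) ∧ s * (z.im - y.im) < 3 / 2 * d :=
        (mem_oseg (Prb.sg hx) hΛ).1 hz
      obtain ⟨h4, h5, h6⟩ : z.re = y'.re ∧ 0 ≤ s' * (z.im - y'.im) ∧
        s' * (z.im - y'.im) ≤ 3 / 2 * d := (mem_seg (Prb.sg hx') hΛ).1 hz'
      have h7 : y'.re = y.re := h4.symm.trans h1
      obtain rfl | rfl : s' = s ∨ s' = -s := by
        rcases Prb.sg hx with (rfl : s = _) | (rfl : s = _) <;>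
          rcases Prb.sg hx' with (rfl : s' = _) | (rfl : s' = _) <;> simp
      · obtain rfl : y' = y := prb_eq hx hx' h7 (by rw [abs_le]; constructor <;> linarith)
        obtain rfl : k = k' := by
          exact_mod_cast mul_right_cancel₀ hl.ne' ((Prb.re hx).symm.trans (Prb.re hx'))
        exact hne rfl
      · exact (prb_free hx h7 (by linarith) (by linarith)).1 (Prb.mem hx')
  · rintro _ (⟨g, hg, rfl⟩ | ⟨x, hx, rfl⟩) h
    · rw [hf g hg]
      exact (hΓ.ends g hg).2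
    · exact h.elim
  · rintro _ (⟨g, hg, rfl⟩ | ⟨x, hx, rfl⟩) j hj
    · classical exact (Finset.mem_filter.1 hj).2
    · rw [Finset.mem_singleton.1 hj]
      exact pr_good hl h10 hx
  · rintro _ (⟨g, hg, rfl⟩ | ⟨x, hx, rfl⟩)
    · exact (hk' g hg).1
    · exact Prb.k3 hx
  · rintro _ (⟨g, hg, rfl⟩ | ⟨x, hx, rfl⟩) h
    · exact ⟨g, hg, rfl, hf g hg⟩
    · exact h.elim
  · have h2 : 10 ≤ 1 / d := by rw [le_div_iff₀ hd0]; linarith
    have h3 : 3 / d = 3 * (1 / d) := by ring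
    rintro _ (⟨g, hg, rfl⟩ | ⟨x, hx, rfl⟩)
    · classical
      have h1 : (Th W d ℓ g).St.card ≤ (Finset.Icc ⌊-1 / d⌋ ⌊1 / d⌋).card :=
        (Finset.card_filter_le _ _).trans Finset.card_image_le
      have h4 := Int.floor_le (1 / d)
      have h5 := Int.lt_floor_add_one (-1 / d)
      have h6 : (((Finset.Icc ⌊-1 / d⌋ ⌊1 / d⌋).card : ℤ) : ℝ) =
          ((⌊1 / d⌋ + 1 - ⌊-1 / d⌋ : ℤ) : ℝ) := by
        rw [Int.card_Icc_of_le _ _ ((Int.floor_mono (by rw [neg_div]; linarith)).trans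
          (Int.le_add_one le_rfl))]
      have h7 := (Nat.cast_le (α := ℝ)).2 h1
      push_cast at h6
      rw [neg_div] at h5 h6 h7
      linarith
    · change (({_} : Finset ℤ).card : ℝ) ≤ _
      rw [Finset.card_singleton]
      push_cast
      linarith
  · rintro _ (⟨g, hg, rfl⟩ | ⟨x, hx, rfl⟩) h
    · exact (h trivial).elim
    · exact ⟨show 3 / 2 * d ≤ _ by linarith, (Finset.card_singleton _).le⟩
  · rintro k j h _ (⟨g, hg, rfl⟩ | ⟨x, hx, rfl⟩) rfl t ht ⟨h1, h2⟩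
    · rcases h with h | h
      · exact h (hk' g hg).1
      · exact disjoint_left.1 (h.2 g hg)
          (mem_ball_iff_norm.2 (near_cen (z := ⟨g.p.re, t⟩) hl (hk' g hg).2 ht))
          ((hseg g hg _).2 ⟨rfl, h1, h2⟩)
    · rcases h with h | h
      · exact h (Prb.k3 hx)
      · refine disjoint_left.1 h.1 (mem_ball_iff_norm.2 ?_) (Prb.mem hx)
        have h3 := near_cen (z := ⟨x.2.1.re, t⟩) (k := x.1) hl (Prb.re hx :) ht
        have h4 := norm_sub_le_norm_sub_add_norm_sub x.2.1 ⟨x.2.1.re, t⟩ (cen ℓ (x.1, j))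
        have h5 := Complex.norm_le_abs_re_add_abs_im (x.2.1 - ⟨x.2.1.re, t⟩)
        simp only [Complex.sub_re, Complex.sub_im, sub_self, abs_zero, zero_add] at h5
        simp only [Pr] at h1 h2
        rw [abs_sub_comm, ← abs_sg (Prb.sg hx), abs_of_nonneg h1] at h5
        change ‖x.2.1 - cen ℓ (x.1, j)‖ < _
        linarith
  · intro g hg z hz h
    classical
    obtain ⟨h1, h2, h3⟩ := (hseg g hg z).1 hz
    have hz1 : |z.im| ≤ 1 := (Complex.abs_im_le_norm z).trans (hB.inn W z c.base fun e =>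
      disjoint_left.1 h (mem_ball_self (by linarith)) (subset_closure e)).2
    have b1 := floor_band hd0 z.im
    have b2 := floor_band hl (⌊z.im / d⌋ * d)
    have b3 : |((⌊⌊z.im / d⌋ * d / ℓ⌋ : ℝ) + 1 / 2) * ℓ - z.im| ≤ 2 * d := by
      rw [abs_le]
      constructor <;> linarith [b1.1, b1.2, b2.1, b2.2]
    have far : ∀ w ∈ closure W, w.re = z.re → 5 * d ≤ |z.im - w.im| := fun w hw e => by
      have h4 := not_lt.1 fun k => disjoint_left.1 h (mem_ball_iff_norm'.2 k) hw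
      have h5 := Complex.norm_le_abs_re_add_abs_im (z - w)
      rw [Complex.sub_re, Complex.sub_im, e, sub_self, abs_zero, zero_add] at h5
      linarith
    have f1 := far _ (hΓ.ends g hg).1 h1.symm
    have f2 := far _ (hΓ.ends g hg).2 ((hΓ.vert g hg).symm.trans h1.symm)
    have hact := act_of (j := ⌊⌊z.im / d⌋ * d / ℓ⌋) hl h (h1.trans (hk' g hg).2) (by linarith)
    refine ⟨_, Or.inl ⟨g, hg, rfl⟩, _, Finset.mem_filter.2 ⟨Finset.mem_image.2 ⟨⌊z.im / d⌋,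
      Finset.mem_Icc.2 ⟨Int.floor_mono ?_, Int.floor_mono ?_⟩, rfl⟩, hact.1, hact.2, fun t ht => ?_⟩,
      (h1.trans (hk' g hg).2).symm, b3⟩
    · exact div_le_div_of_nonneg_right (abs_le.1 hz1).1 hd0.le
    · exact div_le_div_of_nonneg_right (abs_le.1 hz1).2 hd0.le
    · have t1 := ht.1
      have t2 := ht.2
      unfold sg at h2 h3 ⊢
      split_ifs at h2 h3 ⊢ with e
      · rw [abs_of_pos (sub_pos.2 e)] at h3 ⊢
        rw [abs_of_nonneg (by linarith)] at f1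
        rw [abs_of_nonpos (by linarith)] at f2
        constructor <;> linarith [b1.1, b1.2, b2.1, b2.2]
      · rw [abs_of_nonpos (sub_nonpos.2 (not_lt.1 e))] at h3 ⊢
        rw [abs_of_nonpos (by linarith)] at f1
        rw [abs_of_nonneg (by linarith)] at f2
        constructor <;> linarith [b1.1, b1.2, b2.1, b2.2]
  · rw [sub_sub]
    exact pr_near hl _

end

end Pool.Agent.MP_d32a63_an.H62
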